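import Pool.Agent.H0.Robin.E3

set_option autoImplicit false
open MeasureTheory Filter Topology Set
open scoped InnerProductSpace ENNReal

namespace Pool.Agent.Robin

/-- Unfolded form of `InH1`. -/
structure InH1s (h : E3 → ℝ) (u : E3 × ℝ → ℝ) (G : Fin 3 → E3 × ℝ → ℝ) (g : E3 × ℝ → ℝ)
    (f : E3 → ℝ) : Prop where
  memu : MemLp u 2 (volume.restrict (Omega h))
  memG : ∀ i, MemLp (G i) 2 (volume.restrict (Omega h))
  memg : MemLp g 2 (volume.restrict (Omega h))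
  memf : MemLp f 2 (bdryMeasure h)
  approx : ∀ ε : ℝ≥0∞, 0 < ε → ∃ φ : E3 × ℝ → ℝ, ContDiff ℝ ((⊤ : ℕ∞) : WithTop ℕ∞) φ ∧
    HasCompactSupport φ ∧
    eLpNorm (fun q => φ q - u q) 2 (volume.restrict (Omega h)) < ε ∧
    (∀ i, eLpNorm (fun q => fderiv ℝ φ q (ee i, 0) - G i q) 2 (volume.restrict (Omega h)) < ε) ∧
    eLpNorm (fun q => fderiv ℝ φ q (0, 1) - g q) 2 (volume.restrict (Omega h)) < ε ∧
    eLpNorm (fun x => φ (x, h x) - f x) 2 (bdryMeasure h) < ε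

/-- Unfolded form of `robin`. -/
noncomputable def robins (h : E3 → ℝ) (α : ℝ) (G : Fin 3 → E3 × ℝ → ℝ) (g : E3 × ℝ → ℝ)
    (f : E3 → ℝ) (G' : Fin 3 → E3 × ℝ → ℝ) (g' : E3 × ℝ → ℝ) (f' : E3 → ℝ) : ℝ :=
  (∑ i, ∫ q in Omega h, G i q * G' i q) + (∫ q in Omega h, g q * g' q)
    + α * ∫ x, f x * f' x ∂(bdryMeasure h)

end Pool.Agent.Robin
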