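import Pool.Agent.H0.Robin.Test
import Pool.Agent.H0.Robin.Old

set_option autoImplicit false
set_option linter.unusedSectionVars false
open MeasureTheory Filter Topology Set
open scoped InnerProductSpace ENNReal

namespace Pool.Agent.Robin

section limits
variable {X : Type*} [MeasurableSpace X] {μ : Measure X}

lemma memLp_of_diff {a u : X → ℝ} (hu : MemLp u 2 μ) (ha : AEStronglyMeasurable a μ)
    {ε : ℝ≥0∞} (h : eLpNorm (fun q => a q - u q) 2 μ < ε) : MemLp a 2 μ := by
  have h1 : MemLp (fun q => a q - u q) 2 μ :=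
    ⟨ha.sub hu.1, lt_of_lt_of_le h le_top⟩
  have h2 := h1.add hu
  have : (fun q => a q - u q) + u = a := by
    funext q; simp
  rwa [this] at h2

lemma tendsto_toLp {u : X → ℝ} {a : ℕ → X → ℝ} (hu : MemLp u 2 μ) (ha : ∀ k, MemLp (a k) 2 μ)
    (h : Tendsto (fun k => eLpNorm (fun q => a k q - u q) 2 μ) atTop (𝓝 0)) :
    Tendsto (fun k => (ha k).toLp (a k)) atTop (𝓝 (hu.toLp u)) := by
  rw [Lp.tendsto_Lp_iff_tendsto_eLpNorm'']
  exact h

lemma inner_toLp {u v : X → ℝ} (hu : MemLp u 2 μ) (hv : MemLp v 2 μ) :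
    ⟪hu.toLp u, hv.toLp v⟫_ℝ = ∫ q, u q * v q ∂μ := by
  rw [L2.inner_def]
  apply integral_congr_ae
  filter_upwards [hu.coeFn_toLp, hv.coeFn_toLp] with q h1 h2
  rw [h1, h2]
  simp [mul_comm]

lemma prod_tendsto {u v : X → ℝ} {a b : ℕ → X → ℝ} (hu : MemLp u 2 μ) (hv : MemLp v 2 μ)
    (ha : ∀ k, MemLp (a k) 2 μ) (hb : ∀ k, MemLp (b k) 2 μ)
    (h1 : Tendsto (fun k => eLpNorm (fun q => a k q - u q) 2 μ) atTop (𝓝 0))
    (h2 : Tendsto (fun k => eLpNorm (fun q => b k q - v q) 2 μ) atTop (𝓝 0)) :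
    Tendsto (fun k => ∫ q, a k q * b k q ∂μ) atTop (𝓝 (∫ q, u q * v q ∂μ)) := by
  have h3 := (tendsto_toLp hu ha h1).inner (𝕜 := ℝ) (tendsto_toLp hv hb h2)
  rw [inner_toLp] at h3
  refine h3.congr fun k => ?_
  rw [inner_toLp]

end limits

/-- The data attached to a test function. -/
lemma test_robins (α : ℝ) (hα : α < 0) (φ : E3 × ℝ → ℝ) (hφ : ContDiff ℝ 1 φ)
    (hc : HasCompactSupport φ) :
    -α ^ 2 * ∫ p in Omega (hill α), φ p * φ p ≤
      robins (hill α) α (fun i q => fderiv ℝ φ q (ee i, 0)) (fun q => fderiv ℝ φ q (0, 1))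
        (fun x => φ (x, hill α x)) (fun i q => fderiv ℝ φ q (ee i, 0))
        (fun q => fderiv ℝ φ q (0, 1)) (fun x => φ (x, hill α x)) := by
  have h0 := test_ineq α hα φ hφ hc
  have hDφ : Continuous (fderiv ℝ φ) := hφ.continuous_fderiv (by norm_num)
  have hDs : HasCompactSupport (fderiv ℝ φ) := hc.fderiv (𝕜 := ℝ)
  have hint : ∀ v : E3 × ℝ, Integrable (fun q => (fderiv ℝ φ q v) * (fderiv ℝ φ q v))
      (volume.restrict (Omega (hill α))) := by
    intro v
    apply Integrable.integrableOn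
    apply Continuous.integrable_of_hasCompactSupport
    · exact (hDφ.clm_apply continuous_const).mul (hDφ.clm_apply continuous_const)
    · apply hDs.mono'
      intro q hq
      apply subset_tsupport
      intro h1
      apply hq
      simp [h1]
  unfold robins
  have e1 : (∫ p in Omega (hill α), gsq φ p) =
      (∑ i, ∫ q in Omega (hill α), fderiv ℝ φ q (ee i, 0) * fderiv ℝ φ q (ee i, 0))
        + ∫ q in Omega (hill α), fderiv ℝ φ q (0, 1) * fderiv ℝ φ q (0, 1) := by
    rw [← integral_finsetSum _ (fun i _ => hint (ee i, 0)), ← integral_add]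
    · apply integral_congr_ae
      filter_upwards with q
      unfold gsq
      simp [sq]
    · exact integrable_finsetSum _ fun i _ => hint (ee i, 0)
    · exact hint (0, 1)
  have e2 : (∫ x, φ (x, hill α x) * φ (x, hill α x) ∂(bdryMeasure (hill α))) =
      ∫ x : E3, (φ (x, hill α x)) ^ 2 * surf (hill α) x := by
    unfold bdryMeasure
    rw [integral_withDensity_eq_integral_toReal_smul]
    · apply integral_congr_ae
      filter_upwards with x
      have : 0 ≤ surf (hill α) x := Real.sqrt_nonneg _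
      rw [ENNReal.toReal_ofReal this, smul_eq_mul]
      ring
    · apply Measurable.ennreal_ofReal
      have : ContDiff ℝ 1 (hill α) := by
        have := hill_contDiff α 1
        exact_mod_cast this
      unfold surf
      have h2 : Continuous (fderiv ℝ (hill α)) := this.continuous_fderiv (by norm_num)
      exact (Real.continuous_sqrt.comp (continuous_const.add (h2.norm.pow 2))).measurable
    · filter_upwards with x
      exact ENNReal.ofReal_lt_top
  rw [e2, ← e1]
  have e3 : (∫ p in Omega (hill α), φ p * φ p) = ∫ p in Omega (hill α), (φ p) ^ 2 := by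
    congr 1
    funext p
    ring
  rw [e3]
  exact h0

/-- Approximating sequences of a form-domain element. -/
lemma exists_seq {h : E3 → ℝ} (hh : Continuous h) {u : E3 × ℝ → ℝ} {G : Fin 3 → E3 × ℝ → ℝ}
    {g : E3 × ℝ → ℝ} {f : E3 → ℝ} (H : InH1s h u G g f) :
    ∃ φ : ℕ → E3 × ℝ → ℝ, (∀ k, ContDiff ℝ ((⊤ : ℕ∞) : WithTop ℕ∞) (φ k)) ∧
      (∀ k, HasCompactSupport (φ k)) ∧
      (∀ k, MemLp (φ k) 2 (volume.restrict (Omega h))) ∧
      (∀ i k, MemLp (fun q => fderiv ℝ (φ k) q (ee i, 0)) 2 (volume.restrict (Omega h))) ∧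
      (∀ k, MemLp (fun q => fderiv ℝ (φ k) q (0, 1)) 2 (volume.restrict (Omega h))) ∧
      (∀ k, MemLp (fun x => φ k (x, h x)) 2 (bdryMeasure h)) ∧
      Tendsto (fun k => eLpNorm (fun q => φ k q - u q) 2 (volume.restrict (Omega h))) atTop (𝓝 0) ∧
      (∀ i, Tendsto (fun k => eLpNorm (fun q => fderiv ℝ (φ k) q (ee i, 0) - G i q) 2
        (volume.restrict (Omega h))) atTop (𝓝 0)) ∧
      Tendsto (fun k => eLpNorm (fun q => fderiv ℝ (φ k) q (0, 1) - g q) 2
        (volume.restrict (Omega h))) atTop (𝓝 0) ∧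
      Tendsto (fun k => eLpNorm (fun x => φ k (x, h x) - f x) 2 (bdryMeasure h)) atTop (𝓝 0) := by
  have hpos : ∀ k : ℕ, (0 : ℝ≥0∞) < ((k : ℝ≥0∞) + 1)⁻¹ := by
    intro k
    rw [ENNReal.inv_pos]
    exact ENNReal.add_ne_top.mpr ⟨ENNReal.natCast_ne_top k, ENNReal.one_ne_top⟩
  have hlim : Tendsto (fun k : ℕ => ((k : ℝ≥0∞) + 1)⁻¹) atTop (𝓝 0) := by
    have h1 := ENNReal.tendsto_inv_nat_nhds_zero
    have h2 := h1.comp (tendsto_add_atTop_nat 1)
    refine h2.congr fun k => ?_
    simp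
  choose φ h1 h2 h3 h4 h5 h6 using fun k : ℕ => H.approx _ (hpos k)
  have sq : ∀ {a : ℕ → ℝ≥0∞}, (∀ k, a k < ((k : ℝ≥0∞) + 1)⁻¹) → Tendsto a atTop (𝓝 0) := by
    intro a ha
    exact tendsto_of_tendsto_of_tendsto_of_le_of_le tendsto_const_nhds hlim
      (fun k => zero_le) (fun k => (ha k).le)
  have hD : ∀ k, Continuous (fderiv ℝ (φ k)) := fun k =>
    (h1 k).continuous_fderiv (by simp)
  refine ⟨φ, h1, h2, fun k => ?_, fun i k => ?_, fun k => ?_, fun k => ?_, sq h3,
    fun i => sq fun k => h4 k i, sq h5, sq h6⟩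
  · exact memLp_of_diff H.memu (h1 k).continuous.aestronglyMeasurable (h3 k)
  · exact memLp_of_diff (H.memG i) ((hD k).clm_apply continuous_const).aestronglyMeasurable
      (h4 k i)
  · exact memLp_of_diff H.memg ((hD k).clm_apply continuous_const).aestronglyMeasurable (h5 k)
  · exact memLp_of_diff H.memf
      ((h1 k).continuous.comp (continuous_id.prodMk hh)).aestronglyMeasurable (h6 k)

/-- The form inequality on the whole form domain. -/
theorem form_ineq (α : ℝ) (hα : α < 0) {u : E3 × ℝ → ℝ} {G : Fin 3 → E3 × ℝ → ℝ}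
    {g : E3 × ℝ → ℝ} {f : E3 → ℝ} (H : InH1s (hill α) u G g f) :
    -α ^ 2 * ∫ p in Omega (hill α), u p * u p ≤ robins (hill α) α G g f G g f := by
  have hh : Continuous (hill α) := by
    have := (hill_contDiff α 1).continuous
    exact this
  obtain ⟨φ, h1, h2, m1, m2, m3, m4, t1, t2, t3, t4⟩ := exists_seq hh H
  have key : ∀ k, _ := fun k => test_robins α hα (φ k) ((h1 k).of_le (by exact_mod_cast le_top)) (h2 k)
  refine le_of_tendsto_of_tendsto' (b := atTop) ?_ ?_ key
  · exact (prod_tendsto H.memu H.memu m1 m1 t1 t1).const_mul _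
  · unfold robins
    apply Tendsto.add
    · apply Tendsto.add
      · apply tendsto_finsetSum
        intro i _
        exact prod_tendsto (H.memG i) (H.memG i) (m2 i) (m2 i) (t2 i) (t2 i)
      · exact prod_tendsto H.memg H.memg m3 m3 t3 t3
    · exact (prod_tendsto H.memf H.memf m4 m4 t4 t4).const_mul _

/-- No weak eigenfunction below `-α²`. -/
theorem no_eigen (α : ℝ) (hα : α < 0) {u : E3 × ℝ → ℝ} {G : Fin 3 → E3 × ℝ → ℝ}
    {g : E3 × ℝ → ℝ} {f : E3 → ℝ} (H : InH1s (hill α) u G g f) (lam : ℝ) (hl : lam < -α ^ 2)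
    (heig : ∀ φ : E3 × ℝ → ℝ, ContDiff ℝ ((⊤ : ℕ∞) : WithTop ℕ∞) φ → HasCompactSupport φ →
      robins (hill α) α G g f (fun i q => fderiv ℝ φ q (ee i, 0)) (fun q => fderiv ℝ φ q (0, 1))
        (fun x => φ (x, hill α x)) = lam * ∫ p in Omega (hill α), u p * φ p) :
    ∀ᵐ p ∂(volume.restrict (Omega (hill α))), u p = 0 := by
  have hh : Continuous (hill α) := (hill_contDiff α 1).continuous
  obtain ⟨φ, h1, h2, m1, m2, m3, m4, t1, t2, t3, t4⟩ := exists_seq hh H
  have key : ∀ k, _ := fun k => heig (φ k) (h1 k) (h2 k)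
  have z0 : ∀ {X : Type} [MeasurableSpace X] {μ : Measure X} (a : X → ℝ),
      Tendsto (fun _ : ℕ => eLpNorm (fun q => a q - a q) 2 μ) atTop (𝓝 0) := by
    intro X _ μ a
    simp
  have e1 : Tendsto (fun k => robins (hill α) α G g f (fun i q => fderiv ℝ (φ k) q (ee i, 0))
      (fun q => fderiv ℝ (φ k) q (0, 1)) (fun x => φ k (x, hill α x))) atTop
      (𝓝 (robins (hill α) α G g f G g f)) := by
    unfold robins
    apply Tendsto.add
    · apply Tendsto.add
      · apply tendsto_finsetSum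
        intro i _
        exact prod_tendsto (a := fun _ => G i) (H.memG i) (H.memG i) (fun _ => H.memG i) (m2 i)
          (z0 _) (t2 i)
      · exact prod_tendsto (a := fun _ => g) H.memg H.memg (fun _ => H.memg) m3 (z0 _) t3
    · exact (prod_tendsto (a := fun _ => f) H.memf H.memf (fun _ => H.memf) m4 (z0 _)
        t4).const_mul _
  have e2 : Tendsto (fun k => lam * ∫ p in Omega (hill α), u p * φ k p) atTop
      (𝓝 (lam * ∫ p in Omega (hill α), u p * u p)) :=
    (prod_tendsto (a := fun _ => u) H.memu H.memu (fun _ => H.memu) m1 (z0 _) t1).const_mul _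
  have e3 : robins (hill α) α G g f G g f = lam * ∫ p in Omega (hill α), u p * u p :=
    tendsto_nhds_unique e1 (e2.congr fun k => (key k).symm)
  have e4 := form_ineq α hα H
  have e5 : 0 ≤ ∫ p in Omega (hill α), u p * u p := integral_nonneg fun p => mul_self_nonneg _
  have e6 : ∫ p in Omega (hill α), u p * u p = 0 := by
    nlinarith
  have hint : Integrable (fun p => u p * u p) (volume.restrict (Omega (hill α))) := by
    have := H.memu.integrable_sq
    refine this.congr ?_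
    filter_upwards with p
    ring
  have e7 := (integral_eq_zero_iff_of_nonneg (fun p => mul_self_nonneg (u p)) hint).mp e6
  filter_upwards [e7] with p hp
  simpa using hp

lemma toS {h : E3 → ℝ} {u : E3 × ℝ → ℝ} {G : Fin 3 → E3 × ℝ → ℝ}
    {g : E3 × ℝ → ℝ} {f : E3 → ℝ} (H : InH1 ee h u G g f) : InH1s h u G g f := by
  obtain ⟨a, b, c, d, e⟩ := H
  refine ⟨a, b, c, d, fun ε hε => ?_⟩
  obtain ⟨φ, ⟨t1, t2⟩, e1, e2, e3, e4⟩ := e ε hε
  exact ⟨φ, t1, t2, e1, e2, e3, e4⟩

theorem form_ineq' (α : ℝ) (hα : α < 0) {u : E3 × ℝ → ℝ} {G : Fin 3 → E3 × ℝ → ℝ}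
    {g : E3 × ℝ → ℝ} {f : E3 → ℝ} (H : InH1 ee (hill α) u G g f) :
    -α ^ 2 * ip (vol (hill α)) u u ≤ robin (hill α) α G g f G g f :=
  form_ineq α hα (toS H)

theorem no_eigen' (α : ℝ) (hα : α < 0) {u : E3 × ℝ → ℝ} {G : Fin 3 → E3 × ℝ → ℝ}
    {g : E3 × ℝ → ℝ} {f : E3 → ℝ} (H : InH1 ee (hill α) u G g f) (lam : ℝ) (hl : lam < -α ^ 2)
    (heig : WeakEigen ee (hill α) α lam u G g f) :
    ∀ᵐ p ∂(vol (hill α)), u p = 0 :=
  no_eigen α hα (toS H) lam hl (fun φ h1 h2 => heig φ ⟨h1, h2⟩)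

end Pool.Agent.Robin
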