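import Mathlib

set_option autoImplicit false
open MeasureTheory Set
open scoped ENNReal

namespace Pool.Agent.Robin

variable {E : Type} [NormedAddCommGroup E] [NormedSpace ℝ E] [MeasureSpace E]

/-- region above the graph of `h` -/
def Omega (h : E → ℝ) : Set (E × ℝ) := {p | h p.1 < p.2}

/-- `Ω = {(x, t) : t > h x}` is a locally deformed half-space, different from the half-space. -/
def DeformedHalfSpace (h : E → ℝ) : Prop :=
  ContDiff ℝ ((⊤ : ℕ∞) : WithTop ℕ∞) h ∧ HasCompactSupport h ∧ (∃ K, LipschitzWith K h) ∧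
    (∀ x, 0 ≤ h x) ∧ IsOpen (Omega h) ∧ IsConnected (Omega h) ∧
    frontier (Omega h) = {p | p.2 = h p.1} ∧ Omega h ≠ Omega 0 ∧
    ∃ R : ℝ, ∀ p : E × ℝ, R < ‖p.1‖ ^ 2 + p.2 ^ 2 → (p ∈ Omega h ↔ 0 < p.2)

/-- surface element of the graph of `h` -/
noncomputable def surf (h : E → ℝ) (x : E) : ℝ := Real.sqrt (1 + ‖fderiv ℝ h x‖ ^ 2)

/-- Surface measure of the graph of `h`, in the coordinate `x`. -/
noncomputable def bdryMeasure (h : E → ℝ) : Measure E :=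
  volume.withDensity (fun x => ENNReal.ofReal (surf h x))

/-- Lebesgue measure on `Ω`. -/
noncomputable def vol (h : E → ℝ) : Measure (E × ℝ) := volume.restrict (Omega h)

/-- Test functions `C_c^∞`. -/
def IsTest (φ : E × ℝ → ℝ) : Prop :=
  ContDiff ℝ ((⊤ : ℕ∞) : WithTop ℕ∞) φ ∧ HasCompactSupport φ

/-- Partial derivatives of `φ` in the directions of the basis `b` of `E`. -/
noncomputable def dx (b : Fin 3 → E) (φ : E × ℝ → ℝ) (i : Fin 3) (q : E × ℝ) : ℝ :=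
  fderiv ℝ φ q (b i, 0)

/-- Partial derivative of `φ` in the last variable. -/
noncomputable def dt (φ : E × ℝ → ℝ) (q : E × ℝ) : ℝ := fderiv ℝ φ q (0, 1)

/-- Boundary values of `φ` on the graph of `h`, in the coordinate `x`. -/
def tr (h : E → ℝ) (φ : E × ℝ → ℝ) (x : E) : ℝ := φ (x, h x)

/-- `L²` distance. -/
noncomputable def dist2 {X : Type} [MeasurableSpace X] (μ : Measure X) (a b : X → ℝ) : ℝ≥0∞ :=
  eLpNorm (fun q => a q - b q) 2 μ

/-- `L²` scalar product. -/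
noncomputable def ip {X : Type} [MeasurableSpace X] (μ : Measure X) (a b : X → ℝ) : ℝ :=
  ∫ q, a q * b q ∂μ

/-- Form domain `H¹(Ω)`: `u` is the function, `G 0, G 1, G 2, g` are its four partial derivatives
on `Ω` and `f` its boundary trace (written in the coordinate `x`). `H¹(Ω)` is the closure of the
restrictions of `C_c^∞`, derivatives and trace being the `L²`-limits. -/
def InH1 (b : Fin 3 → E) (h : E → ℝ) (u : E × ℝ → ℝ) (G : Fin 3 → E × ℝ → ℝ) (g : E × ℝ → ℝ)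
    (f : E → ℝ) : Prop :=
  MemLp u 2 (vol h) ∧ (∀ i, MemLp (G i) 2 (vol h)) ∧ MemLp g 2 (vol h) ∧
  MemLp f 2 (bdryMeasure h) ∧
  ∀ ε : ℝ≥0∞, 0 < ε → ∃ φ, IsTest φ ∧ dist2 (vol h) φ u < ε ∧
    (∀ i, dist2 (vol h) (dx b φ i) (G i) < ε) ∧ dist2 (vol h) (dt φ) g < ε ∧
    dist2 (bdryMeasure h) (tr h φ) f < ε

/-- The Robin form `q_α[u, v] = ∫_Ω ∇u·∇v + α ∫_{∂Ω} u v dσ`. -/
noncomputable def robin (h : E → ℝ) (α : ℝ) (G : Fin 3 → E × ℝ → ℝ) (g : E × ℝ → ℝ)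
    (f : E → ℝ) (G' : Fin 3 → E × ℝ → ℝ) (g' : E × ℝ → ℝ) (f' : E → ℝ) : ℝ :=
  (∑ i, ip (vol h) (G i) (G' i)) + ip (vol h) g g' + α * ip (bdryMeasure h) f f'

/-- `u` (with its derivatives and trace) is a weak eigenfunction of `-Δ_α^Ω`, eigenvalue `lam`. -/
def WeakEigen (b : Fin 3 → E) (h : E → ℝ) (α lam : ℝ) (u : E × ℝ → ℝ) (G : Fin 3 → E × ℝ → ℝ)
    (g : E × ℝ → ℝ) (f : E → ℝ) : Prop :=
  ∀ φ, IsTest φ → robin h α G g f (dx b φ) (dt φ) (tr h φ) = lam * ip (vol h) u φ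

/-- There is a locally deformed half-space of `E × ℝ` whose Robin form is bounded below by `-α²`
and whose Robin Laplacian has no eigenvalue below `-α²`. -/
def NoBoundState (b : Fin 3 → E) (α : ℝ) : Prop :=
  ∃ h : E → ℝ, DeformedHalfSpace h ∧
    ∀ (u : E × ℝ → ℝ) (G : Fin 3 → E × ℝ → ℝ) (g : E × ℝ → ℝ) (f : E → ℝ),
      InH1 b h u G g f →
        -α ^ 2 * ip (vol h) u u ≤ robin h α G g f G g f ∧
        ∀ lam : ℝ, lam < -α ^ 2 → WeakEigen b h α lam u G g f → ∀ᵐ p ∂(vol h), u p = 0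

end Pool.Agent.Robin
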