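import Pool.Agent.H0.Robin.Defs

set_option autoImplicit false

namespace Pool.Agent.Robin

/-- `ℝ³` -/
abbrev E3 : Type := EuclideanSpace ℝ (Fin 3)

/-- standard basis of `ℝ³` -/
noncomputable abbrev ee (i : Fin 3) : E3 := EuclideanSpace.single i (1 : ℝ)

end Pool.Agent.Robin
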