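import Pool.Agent.H0.Robin.E3

set_option autoImplicit false
open MeasureTheory Filter Topology Set
open scoped InnerProductSpace

namespace Pool.Agent.Robin

/-- the field `∇g/g` for `g = (1+|x|²)^{-1/2}` -/
noncomputable def af (i : Fin 3) (x : E3) : ℝ := -(x i) / (1 + ‖x‖ ^ 2)

lemma af_contDiff (i : Fin 3) : ContDiff ℝ 1 (af i) := by
  unfold af
  apply ContDiff.div
  · apply ContDiff.neg
    exact (EuclideanSpace.proj (𝕜 := ℝ) i : E3 →L[ℝ] ℝ).contDiff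
  · exact contDiff_const.add (contDiff_norm_sq ℝ)
  · intro x
    positivity

lemma af_fderiv (i : Fin 3) (x : E3) :
    fderiv ℝ (af i) x (ee i) = -1 / (1 + ‖x‖ ^ 2) + 2 * (x i) ^ 2 / (1 + ‖x‖ ^ 2) ^ 2 := by
  have h1 : HasFDerivAt (fun x : E3 => -(x i)) (-(EuclideanSpace.proj (𝕜 := ℝ) i : E3 →L[ℝ] ℝ)) x :=
    (EuclideanSpace.proj (𝕜 := ℝ) i : E3 →L[ℝ] ℝ).hasFDerivAt.neg
  have h2 : HasFDerivAt (fun x : E3 => 1 + ‖x‖ ^ 2) (2 • (innerSL ℝ x)) x :=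
    (hasStrictFDerivAt_norm_sq x).hasFDerivAt.const_add 1
  have hq : (1 + ‖x‖ ^ 2) ≠ 0 := by positivity
  have h2' : HasFDerivAt (fun x : E3 => (1 + ‖x‖ ^ 2)⁻¹) (-((1 + ‖x‖ ^ 2) ^ 2)⁻¹ • (2 • (innerSL ℝ x))) x :=
    (hasDerivAt_inv hq).comp_hasFDerivAt x h2
  have h3 := h1.fun_mul h2'
  have he : af i =ᶠ[𝓝 x] fun x : E3 => -(x i) * (1 + ‖x‖ ^ 2)⁻¹ := by
    filter_upwards with y
    unfold af
    rw [div_eq_mul_inv]
  have h4 := h3.congr_of_eventuallyEq he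
  rw [h4.fderiv]
  have e1 : ⟪x, ee i⟫_ℝ = x i := by
    simp [ee, EuclideanSpace.inner_single_right]
  simp [e1]
  field_simp
  ring

lemma sum_sq (x : E3) : ∑ i, (x i) ^ 2 = ‖x‖ ^ 2 := by
  rw [EuclideanSpace.norm_sq_eq]
  simp

lemma div_identity (x : E3) :
    ∑ i, fderiv ℝ (af i) x (ee i) + ∑ i, (af i x) ^ 2 = -3 / (1 + ‖x‖ ^ 2) ^ 2 := by
  have hq : (1 + ‖x‖ ^ 2) ≠ 0 := by positivity
  simp_rw [af_fderiv]
  unfold af
  have hs := sum_sq x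
  rw [Fin.sum_univ_three] at hs
  rw [Fin.sum_univ_three, Fin.sum_univ_three]
  rw [← hs] at hq ⊢
  field_simp
  ring

/-! the profile -/

lemma eta_deriv_nonpos (s : ℝ) (hs : s ≤ 0) : deriv expNegInvGlue s = 0 := by
  apply IsLocalMin.deriv_eq_zero
  filter_upwards with t
  rw [expNegInvGlue.zero_of_nonpos hs]
  exact expNegInvGlue.nonneg t

lemma eta_deriv_pos (s : ℝ) (hs : 0 < s) :
    deriv expNegInvGlue s = Real.exp (-s⁻¹) * (s ^ 2)⁻¹ := by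
  have h1 : expNegInvGlue =ᶠ[𝓝 s] fun t => Real.exp (-t⁻¹) := by
    filter_upwards [lt_mem_nhds hs] with t ht
    unfold expNegInvGlue
    rw [if_neg (not_le.mpr ht)]
  rw [h1.deriv_eq]
  have h2 : HasDerivAt (fun t : ℝ => -t⁻¹) ((s ^ 2)⁻¹) s := by
    have := (hasDerivAt_inv hs.ne').fun_neg
    simpa using this
  exact h2.exp.deriv

lemma eta_deriv_bounds (s : ℝ) : 0 ≤ deriv expNegInvGlue s ∧ deriv expNegInvGlue s ≤ 1 := by
  rcases le_or_gt s 0 with hs | hs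
  · rw [eta_deriv_nonpos s hs]; norm_num
  · rw [eta_deriv_pos s hs]
    constructor
    · positivity
    · set u := s⁻¹ with hu
      have hu0 : 0 < u := by positivity
      have h1 : (s ^ 2)⁻¹ = u ^ 2 := by rw [hu, inv_pow]
      rw [h1, Real.exp_neg, inv_mul_le_iff₀ (Real.exp_pos _), mul_one]
      have h2 := Real.quadratic_le_exp_of_nonneg (show 0 ≤ u / 2 by positivity)
      have h3 : u ≤ Real.exp (u / 2) := by nlinarith [sq_nonneg (u / 2 - 1)]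
      have h4 : Real.exp u = Real.exp (u / 2) ^ 2 := by
        rw [← Real.exp_nat_mul]; congr 1; push_cast; ring
      rw [h4]
      exact pow_le_pow_left₀ hu0.le h3 2

/-- the hill -/
noncomputable def hill (α : ℝ) (x : E3) : ℝ := (1 / (2 * (-α))) * expNegInvGlue (1 - ‖x‖ ^ 2)

lemma hill_contDiff (α : ℝ) (n : ℕ∞) : ContDiff ℝ n (hill α) := by
  unfold hill
  apply contDiff_const.mul
  exact expNegInvGlue.contDiff.comp (contDiff_const.sub (contDiff_norm_sq (E := E3) ℝ))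

lemma hill_hasFDerivAt (α : ℝ) (x : E3) :
    HasFDerivAt (hill α)
      ((-(1 / (-α)) * deriv expNegInvGlue (1 - ‖x‖ ^ 2)) • (innerSL ℝ x)) x := by
  have h2 : HasFDerivAt (fun x : E3 => 1 - ‖x‖ ^ 2) (-(2 • (innerSL ℝ x))) x :=
    (hasStrictFDerivAt_norm_sq x).hasFDerivAt.const_sub 1
  have h1 : HasDerivAt expNegInvGlue (deriv expNegInvGlue (1 - ‖x‖ ^ 2)) (1 - ‖x‖ ^ 2) :=
    (((expNegInvGlue.contDiff (n := 1) : ContDiff ℝ 1 expNegInvGlue)).differentiable (by norm_num) _).hasDerivAt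
  have h3 := (h1.comp_hasFDerivAt x h2).const_mul (1 / (2 * (-α)))
  refine HasFDerivAt.congr_fderiv h3 ?_
  ext v
  simp
  ring

lemma hill_fderiv (α : ℝ) (x v : E3) :
    fderiv ℝ (hill α) x v = -(1 / (-α)) * deriv expNegInvGlue (1 - ‖x‖ ^ 2) * ⟪x, v⟫_ℝ := by
  rw [(hill_hasFDerivAt α x).fderiv]
  simp

lemma hill_fderiv_norm (α : ℝ) (hα : α < 0) (x : E3) :
    ‖fderiv ℝ (hill α) x‖ = (1 / (-α)) * deriv expNegInvGlue (1 - ‖x‖ ^ 2) * ‖x‖ := by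
  rw [(hill_hasFDerivAt α x).fderiv, norm_smul, innerSL_apply_norm, Real.norm_eq_abs, neg_mul, abs_neg,
    abs_of_nonneg]
  have h1 := (eta_deriv_bounds (1 - ‖x‖ ^ 2)).1
  have : 0 < -α := by linarith
  positivity

/-- the key boundary inequality -/
lemma bdry (α : ℝ) (hα : α < 0) (x : E3) :
    (-α) * Real.sqrt (1 + ‖fderiv ℝ (hill α) x‖ ^ 2)
      ≤ ∑ i, af i x * fderiv ℝ (hill α) x (ee i) - α := by
  have hα' : 0 < -α := by linarith
  obtain ⟨hd0, hd1⟩ := eta_deriv_bounds (1 - ‖x‖ ^ 2)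
  have hsum : ∑ i, af i x * fderiv ℝ (hill α) x (ee i)
      = (1 / (-α)) * deriv expNegInvGlue (1 - ‖x‖ ^ 2) * (‖x‖ ^ 2 / (1 + ‖x‖ ^ 2)) := by
    have : ∀ i : Fin 3, af i x * fderiv ℝ (hill α) x (ee i)
        = (1 / (-α)) * deriv expNegInvGlue (1 - ‖x‖ ^ 2) * ((x i) ^ 2 / (1 + ‖x‖ ^ 2)) := by
      intro i
      rw [hill_fderiv]
      have e1 : ⟪x, ee i⟫_ℝ = x i := by
        simp [ee, EuclideanSpace.inner_single_right]
      rw [e1]
      unfold af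
      ring
    rw [Finset.sum_congr rfl fun i _ => this i, ← Finset.mul_sum, ← Finset.sum_div, sum_sq]
  rw [hsum, hill_fderiv_norm α hα]
  have hsm := eta_deriv_nonpos (1 - ‖x‖ ^ 2)
  generalize deriv expNegInvGlue (1 - ‖x‖ ^ 2) = d at *
  set r := ‖x‖ with hr
  have hr0 : 0 ≤ r := norm_nonneg _
  set c := 1 / (-α) with hc
  have hc0 : 0 < c := by positivity
  have hcα : (-α) * c = 1 := mul_one_div_cancel hα'.ne'
  -- sqrt bound
  have hsq : Real.sqrt (1 + (c * d * r) ^ 2) ≤ 1 + (c * d * r) ^ 2 / 2 := by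
    rw [Real.sqrt_le_left (by positivity)]
    nlinarith [sq_nonneg ((c * d * r) ^ 2)]
  have h1 : (-α) * Real.sqrt (1 + (c * d * r) ^ 2) ≤ (-α) * (1 + (c * d * r) ^ 2 / 2) :=
    mul_le_mul_of_nonneg_left hsq hα'.le
  refine h1.trans ?_
  have e2 : (-α) * (1 + (c * d * r) ^ 2 / 2) = -α + c * d ^ 2 * r ^ 2 / 2 := by
    have : (-α) * (c * d * r) ^ 2 = ((-α) * c) * (c * d ^ 2 * r ^ 2) := by ring
    rw [mul_add, mul_one, mul_div_assoc', this, hcα, one_mul]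
  rw [e2]
  rcases le_or_gt (1 - r ^ 2) 0 with h | h
  · rw [hsm h]; simp
  · have h5 : 1 / 2 ≤ 1 / (1 + r ^ 2) := by
      apply one_div_le_one_div_of_le (by positivity)
      linarith
    have h6 : c * d ^ 2 * r ^ 2 / 2 ≤ c * d * (r ^ 2 / (1 + r ^ 2)) := by
      have h7 : d ^ 2 ≤ d := by nlinarith
      calc c * d ^ 2 * r ^ 2 / 2 = (c * r ^ 2) * d ^ 2 * (1 / 2) := by ring
        _ ≤ (c * r ^ 2) * d * (1 / (1 + r ^ 2)) := by gcongr
        _ = _ := by ring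
    linarith

end Pool.Agent.Robin
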