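import Pool.Agent.H0.Robin.Close

set_option autoImplicit false
set_option linter.unusedSectionVars false
open MeasureTheory Filter Topology Set
open scoped InnerProductSpace ENNReal

namespace Pool.Agent.Robin

lemma hill_zero_outside (α : ℝ) (x : E3) (hx : 1 ≤ ‖x‖) : hill α x = 0 := by
  unfold hill
  rw [expNegInvGlue.zero_of_nonpos, mul_zero]
  nlinarith

lemma hill_pos_zero (α : ℝ) (hα : α < 0) : 0 < hill α 0 := by
  unfold hill
  apply mul_pos
  · apply div_pos one_pos; linarith
  · apply expNegInvGlue.pos_of_pos; simp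

lemma hill_nonneg (α : ℝ) (hα : α < 0) (x : E3) : 0 ≤ hill α x := by
  unfold hill
  apply mul_nonneg
  · apply div_nonneg zero_le_one; linarith
  · exact expNegInvGlue.nonneg _

lemma hill_le (α : ℝ) (hα : α < 0) (x : E3) : hill α x ≤ 1 / (2 * (-α)) := by
  unfold hill
  have h1 : 0 ≤ 1 / (2 * (-α)) := by
    apply div_nonneg zero_le_one; linarith
  have h2 : expNegInvGlue (1 - ‖x‖ ^ 2) ≤ 1 := by
    unfold expNegInvGlue
    split_ifs with h
    · exact zero_le_one
    · push Not at h
      rw [Real.exp_le_one_iff]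
      have := inv_pos.mpr h
      linarith
  calc 1 / (2 * (-α)) * expNegInvGlue (1 - ‖x‖ ^ 2) ≤ 1 / (2 * (-α)) * 1 :=
        mul_le_mul_of_nonneg_left h2 h1
    _ = _ := mul_one _

lemma hill_lip (α : ℝ) (hα : α < 0) : ∃ K, LipschitzWith K (hill α) := by
  refine ⟨(1 / (-α)).toNNReal, ?_⟩
  have hα' : 0 < -α := by linarith
  apply lipschitzWith_of_nnnorm_fderiv_le (𝕜 := ℝ)
  · exact (show ContDiff ℝ 1 (hill α) from hill_contDiff α 1).differentiable (by norm_num)
  · intro x
    rw [← NNReal.coe_le_coe, coe_nnnorm, Real.coe_toNNReal _ (by positivity), hill_fderiv_norm α hα]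
    obtain ⟨h0, h1⟩ := eta_deriv_bounds (1 - ‖x‖ ^ 2)
    by_cases hx : 1 ≤ ‖x‖
    · have : deriv expNegInvGlue (1 - ‖x‖ ^ 2) = 0 := by
        apply eta_deriv_nonpos
        nlinarith
      rw [this]
      simp
      exact hα.le
    · push Not at hx
      have h2 : 0 ≤ ‖x‖ := norm_nonneg x
      have h3 : deriv expNegInvGlue (1 - ‖x‖ ^ 2) * ‖x‖ ≤ 1 * 1 :=
        mul_le_mul h1 hx.le h2 zero_le_one
      have h4 : (0 : ℝ) ≤ 1 / (-α) := by positivity
      nlinarith

lemma isOpen_Omega (h : E3 → ℝ) (hh : Continuous h) : IsOpen (Omega h) :=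
  isOpen_lt (hh.comp continuous_fst) continuous_snd

lemma isConnected_Omega (h : E3 → ℝ) (hh : Continuous h) : IsConnected (Omega h) := by
  have h1 : Omega h = shearH h hh '' (univ ×ˢ Ioi (0 : ℝ)) := by
    rw [← shear_pre h hh]
    exact ((shearH h hh).toEquiv.image_preimage (Omega h)).symm
  rw [h1]
  apply IsConnected.image
  · exact isConnected_univ.prod isConnected_Ioi
  · exact (shearH h hh).continuous.continuousOn

lemma frontier_Omega (h : E3 → ℝ) (hh : Continuous h) :
    frontier (Omega h) = {p | p.2 = h p.1} := by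
  have hcl : closure (Omega h) = {p | h p.1 ≤ p.2} := by
    apply Subset.antisymm
    · apply closure_minimal
      · intro p hp
        have hp' : h p.1 < p.2 := hp
        exact hp'.le
      · exact isClosed_le (hh.comp continuous_fst) continuous_snd
    · intro p hp
      have hp' : h p.1 ≤ p.2 := hp
      rw [mem_closure_iff_seq_limit]
      refine ⟨fun n => (p.1, p.2 + 1 / ((n : ℝ) + 1)), fun n => ?_, ?_⟩
      · change h p.1 < p.2 + 1 / ((n : ℝ) + 1)
        have : (0 : ℝ) < 1 / ((n : ℝ) + 1) := by positivity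
        linarith
      · have h2 : Tendsto (fun n : ℕ => p.2 + 1 / ((n : ℝ) + 1)) atTop (𝓝 (p.2 + 0)) :=
          tendsto_const_nhds.add tendsto_one_div_add_atTop_nhds_zero_nat
        rw [add_zero] at h2
        exact (tendsto_const_nhds (x := p.1)).prodMk_nhds h2
  rw [(isOpen_Omega h hh).frontier_eq, hcl]
  ext p
  constructor
  · rintro ⟨h1, h2⟩
    have h1' : h p.1 ≤ p.2 := h1
    have h2' : ¬ (h p.1 < p.2) := h2
    exact le_antisymm (not_lt.mp h2') h1'
  · intro h1
    have h1' : p.2 = h p.1 := h1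
    exact ⟨h1'.symm.le, fun h2 => absurd (show h p.1 < p.2 from h2) (not_lt.mpr h1'.le)⟩


lemma hill_deformed (α : ℝ) (hα : α < 0) : DeformedHalfSpace (hill α) := by
  have hcd : ContDiff ℝ ((⊤ : ℕ∞) : WithTop ℕ∞) (hill α) := hill_contDiff α ⊤
  have hh : Continuous (hill α) := hcd.continuous
  refine ⟨hcd, ?_, hill_lip α hα, hill_nonneg α hα, isOpen_Omega _ hh,
    isConnected_Omega _ hh, frontier_Omega _ hh, ?_, ?_⟩
  · apply HasCompactSupport.intro (isCompact_closedBall (0 : E3) 1)
    intro x hx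
    apply hill_zero_outside
    simp only [Metric.mem_closedBall, dist_zero_right, not_le] at hx
    exact hx.le
  · intro heq
    have h1 : ((0 : E3), hill α 0) ∈ Omega (0 : E3 → ℝ) := by
      change (0 : ℝ) < hill α 0
      exact hill_pos_zero α hα
    rw [← heq] at h1
    have h2 : hill α 0 < hill α 0 := h1
    exact lt_irrefl _ h2
  · refine ⟨1 + (1 / (2 * (-α))) ^ 2, fun p hp => ?_⟩
    change hill α p.1 < p.2 ↔ 0 < p.2
    by_cases hx : 1 ≤ ‖p.1‖
    · rw [hill_zero_outside α p.1 hx]
    · push Not at hx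
      have h0 := norm_nonneg p.1
      have hM : 0 < 1 / (2 * (-α)) := by
        apply div_pos one_pos; linarith
      have h1 := hill_le α hα p.1
      have h2 := hill_nonneg α hα p.1
      set M := 1 / (2 * (-α)) with hMdef
      have h3 : M ^ 2 < p.2 ^ 2 := by nlinarith
      constructor
      · intro h4
        linarith
      · intro h4
        have h5 : M < p.2 := lt_of_pow_lt_pow_left₀ 2 h4.le h3
        linarith

end Pool.Agent.Robin
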