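import Pool.Agent.H0.Robin.Field

set_option autoImplicit false
set_option linter.unusedSectionVars false
open MeasureTheory Filter Topology Set
open scoped InnerProductSpace

namespace Pool.Agent.Robin

/-- shear map -/
def shear (h : E3 → ℝ) (p : E3 × ℝ) : E3 × ℝ := (p.1, h p.1 + p.2)

section
variable (h : E3 → ℝ) (hh : Continuous h)
include hh

/-- the shear as a homeomorphism -/
def shearH : (E3 × ℝ) ≃ₜ (E3 × ℝ) where
  toFun := shear h
  invFun p := (p.1, p.2 - h p.1)
  left_inv p := by ext <;> simp [shear]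
  right_inv p := by ext <;> simp [shear]
  continuous_toFun := by unfold shear; fun_prop
  continuous_invFun := by fun_prop

lemma shear_mp : MeasurePreserving (shear h) (volume : Measure (E3 × ℝ)) volume := by
  have h1 : MeasurePreserving (fun p : E3 × ℝ => (id p.1, (fun (x : E3) (t : ℝ) => h x + t) p.1 p.2))
      ((volume : Measure E3).prod (volume : Measure ℝ)) ((volume : Measure E3).prod volume) := by
    apply MeasurePreserving.skew_product (g := fun (x : E3) (t : ℝ) => h x + t)
      (MeasurePreserving.id (volume : Measure E3))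
    · apply Continuous.measurable
      unfold Function.uncurry
      fun_prop
    · filter_upwards with x
      exact (measurePreserving_add_left volume (h x)).map_eq
  exact h1

lemma shear_pre : shear h ⁻¹' (Omega h) = univ ×ˢ Ioi 0 := by
  ext p
  simp [Omega, shear]

lemma setIntegral_shear (F : E3 × ℝ → ℝ) :
    ∫ p in Omega h, F p = ∫ p in univ ×ˢ Ioi (0 : ℝ), F (shear h p) := by
  have h1 := (shear_mp h hh).setIntegral_preimage_emb
    ((shearH h hh).measurableEmbedding) F (Omega h)
  rw [shear_pre h hh] at h1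
  exact h1.symm

end

section fubini
variable (F : E3 × ℝ → ℝ) (hF : Integrable F)
include hF

lemma fub1 : ∫ p in univ ×ˢ Ioi (0 : ℝ), F p = ∫ x : E3, ∫ t in Ioi (0 : ℝ), F (x, t) := by
  have h1 : IntegrableOn F (univ ×ˢ Ioi (0 : ℝ)) ((volume : Measure E3).prod (volume : Measure ℝ)) :=
    hF.integrableOn
  have h2 := setIntegral_prod F h1
  rw [Measure.restrict_univ] at h2
  exact h2

lemma fub2 : ∫ p in univ ×ˢ Ioi (0 : ℝ), F p = ∫ t in Ioi (0 : ℝ), ∫ x : E3, F (x, t) := by
  have h1 : IntegrableOn F (univ ×ˢ Ioi (0 : ℝ)) ((volume : Measure E3).prod (volume : Measure ℝ)) :=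
    hF.integrableOn
  have e : ((volume : Measure E3).prod (volume : Measure ℝ)).restrict (univ ×ˢ Ioi (0 : ℝ))
      = (volume : Measure E3).prod ((volume : Measure ℝ).restrict (Ioi 0)) := by
    rw [← Measure.prod_restrict, Measure.restrict_univ]
  have h2 : Integrable F ((volume : Measure E3).prod ((volume : Measure ℝ).restrict (Ioi 0))) := by
    rw [← e]; exact h1
  show ∫ p, F p ∂(((volume : Measure E3).prod (volume : Measure ℝ)).restrict (univ ×ˢ Ioi (0 : ℝ))) = _
  rw [e]
  exact integral_prod_symm F h2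

end fubini

section slices
variable (w : E3 × ℝ → ℝ) (hw : ContDiff ℝ 1 w) (hc : HasCompactSupport w)
include hw hc

lemma slice_t_contDiff (x : E3) : ContDiff ℝ 1 (fun t : ℝ => w (x, t)) :=
  hw.comp (contDiff_const.prodMk contDiff_id)

lemma slice_x_contDiff (t : ℝ) : ContDiff ℝ 1 (fun x : E3 => w (x, t)) :=
  hw.comp (contDiff_id.prodMk contDiff_const)

omit hw in
lemma slice_t_supp (x : E3) : HasCompactSupport (fun t : ℝ => w (x, t)) := by
  obtain ⟨K, hK, hKw⟩ := exists_compact_iff_hasCompactSupport.mpr hc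
  apply HasCompactSupport.intro (hK.image continuous_snd)
  intro t ht
  apply hKw
  intro hmem
  exact ht ⟨(x, t), hmem, rfl⟩

omit hw in
lemma slice_x_supp (t : ℝ) : HasCompactSupport (fun x : E3 => w (x, t)) := by
  obtain ⟨K, hK, hKw⟩ := exists_compact_iff_hasCompactSupport.mpr hc
  apply HasCompactSupport.intro (hK.image continuous_fst)
  intro x hx
  apply hKw
  intro hmem
  exact hx ⟨(x, t), hmem, rfl⟩

omit hc in
lemma slice_t_deriv (x : E3) (t : ℝ) :
    deriv (fun t : ℝ => w (x, t)) t = fderiv ℝ w (x, t) (0, 1) := by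
  have h1 : HasFDerivAt w (fderiv ℝ w (x, t)) (x, t) :=
    (hw.differentiable (by norm_num) _).hasFDerivAt
  have h2 : HasDerivAt (fun t : ℝ => (x, t)) ((0 : E3), (1 : ℝ)) t :=
    (hasDerivAt_const t x).prodMk (hasDerivAt_id t)
  exact (h1.comp_hasDerivAt t h2).deriv

omit hc in
lemma slice_x_fderiv (x : E3) (t : ℝ) (v : E3) :
    fderiv ℝ (fun x : E3 => w (x, t)) x v = fderiv ℝ w (x, t) (v, 0) := by
  have h1 : HasFDerivAt w (fderiv ℝ w (x, t)) (x, t) :=
    (hw.differentiable (by norm_num) _).hasFDerivAt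
  have h2 : HasFDerivAt (fun x : E3 => (x, t)) (ContinuousLinearMap.inl ℝ E3 ℝ) x :=
    hasFDerivAt_prodMk_left x t
  have h3 : HasFDerivAt (fun x : E3 => w (x, t))
      ((fderiv ℝ w (x, t)).comp (ContinuousLinearMap.inl ℝ E3 ℝ)) x := h1.comp x h2
  rw [h3.fderiv]
  simp

/-- normal integration by parts -/
lemma ibp_t (b : E3 → ℝ) (hb : Continuous b) :
    ∫ p in univ ×ˢ Ioi (0 : ℝ), b p.1 * fderiv ℝ w p (0, 1) = -∫ x : E3, b x * w (x, 0) := by
  have hcont : Continuous (fun p : E3 × ℝ => b p.1 * fderiv ℝ w p (0, 1)) :=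
    (hb.comp continuous_fst).mul ((hw.continuous_fderiv (by norm_num)).clm_apply continuous_const)
  have hsupp : HasCompactSupport (fun p : E3 × ℝ => b p.1 * fderiv ℝ w p (0, 1)) := by
    have h1 : HasCompactSupport (fun p : E3 × ℝ => fderiv ℝ w p (0, 1)) :=
      hc.fderiv_apply (𝕜 := ℝ) (0, 1)
    exact h1.mul_left
  rw [fub1 _ (hcont.integrable_of_hasCompactSupport hsupp), ← integral_neg]
  refine integral_congr_ae (Eventually.of_forall fun x => ?_)
  simp only
  rw [integral_const_mul]
  have h2 := (slice_t_supp w hc x).integral_Ioi_deriv_eq (slice_t_contDiff w hw hc x) 0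
  have h3 : ∀ t : ℝ, fderiv ℝ w (x, t) (0, 1) = deriv (fun t : ℝ => w (x, t)) t :=
    fun t => (slice_t_deriv w hw x t).symm
  simp_rw [h3]
  rw [h2]
  ring

/-- tangential integration by parts -/
lemma ibp_x (i : Fin 3) :
    ∫ p in univ ×ˢ Ioi (0 : ℝ), af i p.1 * fderiv ℝ w p (ee i, 0)
      = -∫ p in univ ×ˢ Ioi (0 : ℝ), fderiv ℝ (af i) p.1 (ee i) * w p := by
  have hac := af_contDiff i
  have hcont : Continuous (fun p : E3 × ℝ => af i p.1 * fderiv ℝ w p (ee i, 0)) :=
    (hac.continuous.comp continuous_fst).mul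
      ((hw.continuous_fderiv (by norm_num)).clm_apply continuous_const)
  have hsupp : HasCompactSupport (fun p : E3 × ℝ => af i p.1 * fderiv ℝ w p (ee i, 0)) := by
    have h1 : HasCompactSupport (fun p : E3 × ℝ => fderiv ℝ w p (ee i, 0)) :=
      hc.fderiv_apply (𝕜 := ℝ) (ee i, 0)
    exact h1.mul_left
  have hcont2 : Continuous (fun p : E3 × ℝ => fderiv ℝ (af i) p.1 (ee i) * w p) :=
    (((hac.continuous_fderiv (by norm_num)).comp continuous_fst).clm_apply continuous_const).mul
      hw.continuous
  have hsupp2 : HasCompactSupport (fun p : E3 × ℝ => fderiv ℝ (af i) p.1 (ee i) * w p) :=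
    hc.mul_left
  rw [fub2 _ (hcont.integrable_of_hasCompactSupport hsupp),
    fub2 _ (hcont2.integrable_of_hasCompactSupport hsupp2), ← integral_neg]
  refine integral_congr_ae (Eventually.of_forall fun t => ?_)
  simp only
  have hg := slice_x_contDiff w hw hc t
  have hgs := slice_x_supp w hc t
  have h3 : ∀ x : E3, fderiv ℝ w (x, t) (ee i, 0) = fderiv ℝ (fun x : E3 => w (x, t)) x (ee i) :=
    fun x => (slice_x_fderiv w hw x t (ee i)).symm
  simp_rw [h3]
  apply integral_mul_fderiv_eq_neg_fderiv_mul_of_integrable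
  · apply Continuous.integrable_of_hasCompactSupport
    · exact ((hac.continuous_fderiv (by norm_num)).clm_apply continuous_const).mul hg.continuous
    · exact hgs.mul_left
  · apply Continuous.integrable_of_hasCompactSupport
    · exact hac.continuous.mul ((hg.continuous_fderiv (by norm_num)).clm_apply continuous_const)
    · exact (hgs.fderiv_apply (𝕜 := ℝ) (ee i)).mul_left
  · apply Continuous.integrable_of_hasCompactSupport
    · exact hac.continuous.mul hg.continuous
    · exact hgs.mul_left
  · intro x _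
    exact hac.differentiable (by norm_num) x
  · intro x _
    exact hg.differentiable (by norm_num) x

end slices

end Pool.Agent.Robin
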