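import Pool.Agent.H0.Robin.Green

set_option autoImplicit false
set_option linter.unusedSectionVars false
open MeasureTheory Filter Topology Set
open scoped InnerProductSpace

namespace Pool.Agent.Robin

section
variable (h : E3 → ℝ) (hh : ContDiff ℝ 1 h) (φ : E3 × ℝ → ℝ) (hφ : ContDiff ℝ 1 φ)
  (hc : HasCompactSupport φ)

/-- flattened square -/
def wf (h : E3 → ℝ) (φ : E3 × ℝ → ℝ) (p : E3 × ℝ) : ℝ := (φ (shear h p)) ^ 2

include hh in
lemma shear_contDiff : ContDiff ℝ 1 (shear h) := by
  unfold shear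
  exact contDiff_fst.prodMk ((hh.comp contDiff_fst).add contDiff_snd)

include hh in
lemma shear_hasFDerivAt (p : E3 × ℝ) :
    HasFDerivAt (shear h) ((ContinuousLinearMap.fst ℝ E3 ℝ).prod
      ((fderiv ℝ h p.1).comp (ContinuousLinearMap.fst ℝ E3 ℝ) + ContinuousLinearMap.snd ℝ E3 ℝ)) p := by
  have h1 : HasFDerivAt (fun p : E3 × ℝ => h p.1)
      ((fderiv ℝ h p.1).comp (ContinuousLinearMap.fst ℝ E3 ℝ)) p :=
    ((hh.differentiable (by norm_num) p.1).hasFDerivAt).comp p hasFDerivAt_fst
  exact hasFDerivAt_fst.prodMk (h1.add hasFDerivAt_snd)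

include hh hφ in
lemma wf_contDiff : ContDiff ℝ 1 (wf h φ) := by
  unfold wf
  exact (hφ.comp (shear_contDiff h hh)).pow 2

include hh hc in
lemma comp_supp {F : E3 × ℝ → ℝ} (hF : HasCompactSupport F) :
    HasCompactSupport (fun p => F (shear h p)) :=
  hF.comp_homeomorph (shearH h hh.continuous)

include hh hc in
lemma wf_supp : HasCompactSupport (wf h φ) := by
  have h1 := comp_supp h hh φ hc hc
  have : wf h φ = fun p => φ (shear h p) * φ (shear h p) := by
    funext p; unfold wf; ring
  rw [this]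
  exact h1.mul_left

include hh hφ in
lemma wf_fderiv (p : E3 × ℝ) (v : E3 × ℝ) :
    fderiv ℝ (wf h φ) p v = 2 * φ (shear h p) *
      fderiv ℝ φ (shear h p) (v.1, fderiv ℝ h p.1 v.1 + v.2) := by
  have h1 := (hφ.differentiable (by norm_num) (shear h p)).hasFDerivAt.comp p
    (shear_hasFDerivAt h hh p)
  have h2 := h1.pow 2
  have h3 : HasFDerivAt (wf h φ) _ p := h2
  rw [h3.fderiv]
  simp

lemma fderiv_split (φ : E3 × ℝ → ℝ) (q : E3 × ℝ) (v : E3) (s : ℝ) :
    fderiv ℝ φ q (v, s) = fderiv ℝ φ q (v, 0) + s * fderiv ℝ φ q (0, 1) := by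
  have : ((v, s) : E3 × ℝ) = (v, 0) + s • ((0 : E3), (1 : ℝ)) := by
    ext <;> simp
  rw [this, map_add, map_smul, smul_eq_mul]

/-- squared gradient -/
noncomputable def gsq (φ : E3 × ℝ → ℝ) (q : E3 × ℝ) : ℝ :=
  ∑ i, (fderiv ℝ φ q (ee i, 0)) ^ 2 + (fderiv ℝ φ q (0, 1)) ^ 2

include hh hφ in
lemma pointwise (α : ℝ) (p : E3 × ℝ) :
    ∑ i, af i p.1 * fderiv ℝ (wf h φ) p (ee i, 0)
      + (α - ∑ i, af i p.1 * fderiv ℝ h p.1 (ee i)) * fderiv ℝ (wf h φ) p (0, 1)
      - (∑ i, (af i p.1) ^ 2) * wf h φ p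
    ≤ gsq φ (shear h p) + α ^ 2 * (φ (shear h p)) ^ 2 := by
  simp_rw [wf_fderiv h hh φ hφ]
  simp only [add_zero, map_zero, zero_add]
  unfold gsq wf
  have e : ∀ i : Fin 3, fderiv ℝ φ (shear h p) (ee i, fderiv ℝ h p.1 (ee i))
      = fderiv ℝ φ (shear h p) (ee i, 0) + fderiv ℝ h p.1 (ee i) * fderiv ℝ φ (shear h p) (0, 1) :=
    fun i => fderiv_split φ _ _ _
  simp_rw [e]
  rw [Fin.sum_univ_three, Fin.sum_univ_three, Fin.sum_univ_three, Fin.sum_univ_three]
  generalize fderiv ℝ φ (shear h p) (0, 1) = dy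
  generalize fderiv ℝ φ (shear h p) (ee 0, 0) = d0
  generalize fderiv ℝ φ (shear h p) (ee 1, 0) = d1
  generalize fderiv ℝ φ (shear h p) (ee 2, 0) = d2
  generalize fderiv ℝ h p.1 (ee 0) = k0
  generalize fderiv ℝ h p.1 (ee 1) = k1
  generalize fderiv ℝ h p.1 (ee 2) = k2
  generalize φ (shear h p) = z
  generalize af 0 p.1 = a0
  generalize af 1 p.1 = a1
  generalize af 2 p.1 = a2
  nlinarith [sq_nonneg (d0 - a0 * z), sq_nonneg (d1 - a1 * z), sq_nonneg (d2 - a2 * z),
    sq_nonneg (dy - α * z)]

end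

/-- The Robin form inequality for test functions. -/
theorem test_ineq (α : ℝ) (hα : α < 0) (φ : E3 × ℝ → ℝ) (hφ : ContDiff ℝ 1 φ)
    (hc : HasCompactSupport φ) :
    -α ^ 2 * ∫ p in Omega (hill α), (φ p) ^ 2 ≤
      (∫ p in Omega (hill α), gsq φ p)
        + α * ∫ x : E3, (φ (x, hill α x)) ^ 2 * surf (hill α) x := by
  set h := hill α with hhdef
  have hh : ContDiff ℝ 1 h := by
    have := hill_contDiff α 1
    exact_mod_cast this
  have hw := wf_contDiff h hh φ hφ
  have hws := wf_supp h hh φ hc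
  set w := wf h φ with hwdef
  -- continuity facts
  have hDφ : Continuous (fderiv ℝ φ) := hφ.continuous_fderiv (by norm_num)
  have hDh : Continuous (fderiv ℝ h) := hh.continuous_fderiv (by norm_num)
  have hDw : Continuous (fderiv ℝ w) := hw.continuous_fderiv (by norm_num)
  have hsh : Continuous (shear h) := (shear_contDiff h hh).continuous
  have hac : ∀ i, Continuous (af i) := fun i => (af_contDiff i).continuous
  have hadc : ∀ i, Continuous (fun x : E3 => fderiv ℝ (af i) x (ee i)) := fun i =>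
    ((af_contDiff i).continuous_fderiv (by norm_num)).clm_apply continuous_const
  have hgc : Continuous (gsq φ) := by
    unfold gsq
    apply Continuous.add
    · exact continuous_finsetSum _ fun i _ => (hDφ.clm_apply continuous_const).pow 2
    · exact (hDφ.clm_apply continuous_const).pow 2
  have hgs : HasCompactSupport (gsq φ) := by
    have h1 : HasCompactSupport (fderiv ℝ φ) := hc.fderiv (𝕜 := ℝ)
    apply h1.mono'
    intro q hq
    apply subset_tsupport
    intro h0
    apply hq
    unfold gsq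
    simp [h0]
  have hgs' := comp_supp h hh φ hc hgs
  have hφs' : HasCompactSupport (fun p => (φ (shear h p)) ^ 2) := hws
  -- rewrite the volume integrals
  have e1 : ∫ p in Omega h, gsq φ p = ∫ p in univ ×ˢ Ioi (0 : ℝ), gsq φ (shear h p) :=
    setIntegral_shear h hh.continuous _
  have e2 : ∫ p in Omega h, (φ p) ^ 2 = ∫ p in univ ×ˢ Ioi (0 : ℝ), (φ (shear h p)) ^ 2 :=
    setIntegral_shear h hh.continuous (fun p => (φ p) ^ 2)
  -- integrability
  have i1 : Integrable (fun p => gsq φ (shear h p)) :=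
    (hgc.comp hsh).integrable_of_hasCompactSupport hgs'
  have i2 : Integrable (fun p => (φ (shear h p)) ^ 2) :=
    ((hφ.continuous.comp hsh).pow 2).integrable_of_hasCompactSupport hφs'
  have iw : Integrable w := hw.continuous.integrable_of_hasCompactSupport hws
  have j1 : ∀ i, Integrable (fun p : E3 × ℝ => af i p.1 * fderiv ℝ w p (ee i, 0)) := fun i => by
    apply Continuous.integrable_of_hasCompactSupport
    · exact ((hac i).comp continuous_fst).mul (hDw.clm_apply continuous_const)
    · exact (hws.fderiv_apply (𝕜 := ℝ) (ee i, 0)).mul_left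
  set b : E3 → ℝ := fun x => α - ∑ i, af i x * fderiv ℝ h x (ee i) with hb
  have hbc : Continuous b := by
    rw [hb]
    exact continuous_const.sub (continuous_finsetSum _ fun i _ =>
      (hac i).mul (hDh.clm_apply continuous_const))
  have j2 : Integrable (fun p : E3 × ℝ => b p.1 * fderiv ℝ w p (0, 1)) := by
    apply Continuous.integrable_of_hasCompactSupport
    · exact (hbc.comp continuous_fst).mul (hDw.clm_apply continuous_const)
    · exact (hws.fderiv_apply (𝕜 := ℝ) (0, 1)).mul_left
  have j3 : Integrable (fun p : E3 × ℝ => (∑ i, (af i p.1) ^ 2) * w p) := by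
    apply Continuous.integrable_of_hasCompactSupport
    · exact (continuous_finsetSum _ fun i _ => ((hac i).comp continuous_fst).pow 2).mul hw.continuous
    · exact hws.mul_left
  have j4 : ∀ i, Integrable (fun p : E3 × ℝ => fderiv ℝ (af i) p.1 (ee i) * w p) := fun i => by
    apply Continuous.integrable_of_hasCompactSupport
    · exact ((hadc i).comp continuous_fst).mul hw.continuous
    · exact hws.mul_left
  set S : Set (E3 × ℝ) := univ ×ˢ Ioi (0 : ℝ) with hS
  have hSm : MeasurableSet S := MeasurableSet.univ.prod measurableSet_Ioi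
  have main1 : ∫ p in S, (∑ i, af i p.1 * fderiv ℝ w p (ee i, 0) + b p.1 * fderiv ℝ w p (0, 1)
      - (∑ i, (af i p.1) ^ 2) * w p) ≤ ∫ p in S, (gsq φ (shear h p) + α ^ 2 * (φ (shear h p)) ^ 2) := by
    apply setIntegral_mono
    · exact (((integrable_finsetSum _ fun i _ => j1 i).add j2).sub j3).integrableOn
    · exact (i1.add (i2.const_mul _)).integrableOn
    · intro p
      exact pointwise h hh φ hφ α p
  have lhs : ∫ p in S, (∑ i, af i p.1 * fderiv ℝ w p (ee i, 0) + b p.1 * fderiv ℝ w p (0, 1)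
      - (∑ i, (af i p.1) ^ 2) * w p)
      = -(∫ p in S, (∑ i, fderiv ℝ (af i) p.1 (ee i) + ∑ i, (af i p.1) ^ 2) * w p)
        - ∫ x : E3, b x * w (x, 0) := by
    rw [integral_sub, integral_add, integral_finsetSum, ibp_t w hw hws b hbc]
    · have : ∀ i ∈ Finset.univ, ∫ p in S, af i p.1 * fderiv ℝ w p (ee i, 0)
          = -∫ p in S, fderiv ℝ (af i) p.1 (ee i) * w p := fun i _ => ibp_x w hw hws i
      rw [Finset.sum_congr rfl this, Finset.sum_neg_distrib,
        ← integral_finsetSum _ (fun i _ => (j4 i).integrableOn)]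
      have : ∫ p in S, (∑ i, fderiv ℝ (af i) p.1 (ee i) + ∑ i, (af i p.1) ^ 2) * w p
          = (∫ p in S, ∑ i, fderiv ℝ (af i) p.1 (ee i) * w p) + ∫ p in S, (∑ i, (af i p.1) ^ 2) * w p := by
        rw [← integral_add (integrable_finsetSum _ fun i _ => j4 i).integrableOn j3.integrableOn]
        refine integral_congr_ae (Eventually.of_forall fun p => ?_)
        simp only
        rw [add_mul, Finset.sum_mul]
      rw [this]
      ring
    · exact fun i _ => (j1 i).integrableOn
    · exact (integrable_finsetSum _ fun i _ => j1 i).integrableOn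
    · exact j2.integrableOn
    · exact ((integrable_finsetSum _ fun i _ => j1 i).add j2).integrableOn
    · exact j3.integrableOn
  have hdivneg : ∫ p in S, (∑ i, fderiv ℝ (af i) p.1 (ee i) + ∑ i, (af i p.1) ^ 2) * w p ≤ 0 := by
    apply integral_nonpos
    intro p
    simp only
    rw [div_identity p.1]
    have hw0 : 0 ≤ w p := by rw [hwdef]; unfold wf; positivity
    have : -3 / (1 + ‖p.1‖ ^ 2) ^ 2 ≤ 0 := by
      apply div_nonpos_of_nonpos_of_nonneg (by norm_num) (by positivity)
    exact mul_nonpos_of_nonpos_of_nonneg this hw0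
  have rhs : ∫ p in S, (gsq φ (shear h p) + α ^ 2 * (φ (shear h p)) ^ 2)
      = (∫ p in Omega h, gsq φ p) + α ^ 2 * ∫ p in Omega h, (φ p) ^ 2 := by
    rw [integral_add i1.integrableOn (i2.const_mul _).integrableOn, integral_const_mul, e1, e2]
  -- boundary
  have hwx : ∀ x, w (x, 0) = (φ (x, h x)) ^ 2 := by
    intro x
    rw [hwdef]
    unfold wf shear
    simp
  have hsurf : Continuous (surf h) := by
    unfold surf
    exact (continuous_const.add (hDh.norm.pow 2)).sqrt
  have hsl : HasCompactSupport (fun x : E3 => w (x, 0)) := slice_x_supp w hws 0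
  have hslc : Continuous (fun x : E3 => w (x, 0)) := (slice_x_contDiff w hw hws 0).continuous
  have k1 : Integrable (fun x : E3 => b x * w (x, 0)) := by
    apply Continuous.integrable_of_hasCompactSupport (hbc.mul hslc) hsl.mul_left
  have k2 : Integrable (fun x : E3 => w (x, 0) * surf h x) := by
    apply Continuous.integrable_of_hasCompactSupport (hslc.mul hsurf) hsl.mul_right
  have bd : (-α) * ∫ x : E3, (φ (x, h x)) ^ 2 * surf h x ≤ -∫ x : E3, b x * w (x, 0) := by
    simp_rw [← hwx]
    rw [← integral_const_mul, ← integral_neg]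
    apply integral_mono (k2.const_mul _) k1.neg
    intro x
    show -α * (w (x, 0) * surf h x) ≤ -(b x * w (x, 0))
    have h1 := bdry α hα x
    have hw0 : 0 ≤ w (x, 0) := by rw [hwx]; positivity
    have h2 := mul_le_mul_of_nonneg_right h1 hw0
    have e3 : -(b x * w (x, 0)) = (∑ i, af i x * fderiv ℝ (hill α) x (ee i) - α) * w (x, 0) := by
      rw [hb]; ring
    rw [e3]
    refine le_trans (le_of_eq ?_) h2
    unfold surf
    ring
  rw [lhs, rhs] at main1
  nlinarith [main1, hdivneg, bd]

end Pool.Agent.Robin
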